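import Pool.Agent.Lib_helper14.SF.Rec

/-!
# Concentrated sets of reals with `S_fin(Ω, Ω)` of cardinality `𝔡`, when `𝔡 = 𝔠`

If the dominating number is the cardinality of the continuum (regular or not), then some set of
reals of cardinality `𝔡` satisfies `S_fin(Ω, Ω)`, is `𝔡`-concentrated on a countable subset and
contains no uncountable compact set.
-/

set_option autoImplicit false

namespace Pool.Agent.Results.MP_8d0d04_lc.ContinuumCase

open Set Cardinal

/-- The open `ω`-covers of a space `Y` (for a set of reals `X`, take `Y = X` with the subspace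
topology): families of open sets, none of them all of `Y`, such that every finite subset of `Y` is
inside of a member. -/
def Omega (Y : Type) [TopologicalSpace Y] : Set (Set (Set Y)) :=
  {𝒰 | (∀ U ∈ 𝒰, IsOpen U ∧ U ≠ Set.univ) ∧ ∀ F : Finset Y, ∃ U ∈ 𝒰, (F : Set Y) ⊆ U}

/-- The selection principle `S_fin(A, B)`. -/
def SFin {Y : Type} (A B : Set (Set (Set Y))) : Prop :=
  ∀ 𝒰 : ℕ → Set (Set Y), (∀ n, 𝒰 n ∈ A) →
    ∃ ℱ : ℕ → Set (Set Y), (∀ n, (ℱ n).Finite ∧ ℱ n ⊆ 𝒰 n) ∧ (⋃ n, ℱ n) ∈ B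

/-- The dominating number `𝔡`. -/
noncomputable def dominatingNumber : Cardinal.{0} :=
  sInf {κ | ∃ D : Set (ℕ → ℕ), #D = κ ∧ ∀ g : ℕ → ℕ, ∃ f ∈ D, ∀ᶠ n in Filter.atTop, g n ≤ f n}

theorem homeo {Y Z : Type} [TopologicalSpace Y] [TopologicalSpace Z] (φ : Y ≃ₜ Z)
    (h : SFin (Omega Y) (Omega Y)) : SFin (Omega Z) (Omega Z) := by
  classical
  intro 𝒰 hU
  have hinj : Function.Injective (fun U : Set Z => φ ⁻¹' U) := Set.preimage_injective.2 φ.surjective
  have hV : ∀ n, (fun U : Set Z => φ ⁻¹' U) '' 𝒰 n ∈ Omega Y := by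
    intro n
    refine ⟨?_, fun F => ?_⟩
    · rintro _ ⟨U, hUn, rfl⟩
      refine ⟨((hU n).1 U hUn).1.preimage φ.continuous, fun h => ((hU n).1 U hUn).2 ?_⟩
      exact hinj (by simpa using h)
    · obtain ⟨U, hUn, hFU⟩ := (hU n).2 (F.image φ)
      refine ⟨_, ⟨U, hUn, rfl⟩, fun y hy => hFU ?_⟩
      exact Finset.mem_coe.2 (Finset.mem_image_of_mem φ hy)
  obtain ⟨ℱ, hF, hFc⟩ := h _ hV
  have hsub : ∀ n U, φ ⁻¹' U ∈ ℱ n → U ∈ 𝒰 n := by
    intro n U hUn
    obtain ⟨U', hU', he⟩ := (hF n).2 hUn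
    exact hinj he ▸ hU'
  refine ⟨fun n => (fun U : Set Z => φ ⁻¹' U) ⁻¹' ℱ n, fun n => ⟨(hF n).1.preimage hinj.injOn,
    fun U hUn => hsub n U hUn⟩, ⟨?_, fun F => ?_⟩⟩
  · intro U hUn
    obtain ⟨n, hn⟩ := mem_iUnion.1 hUn
    exact (hU n).1 U (hsub n U hn)
  · obtain ⟨V, hVm, hFV⟩ := hFc.2 (F.image φ.symm)
    obtain ⟨n, hn⟩ := mem_iUnion.1 hVm
    obtain ⟨U, hUn, rfl⟩ := (hF n).2 hn
    refine ⟨U, mem_iUnion.2 ⟨n, hn⟩, fun z hz => ?_⟩
    have := hFV (Finset.mem_coe.2 (Finset.mem_image_of_mem φ.symm hz))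
    simpa using this

theorem exists_inj {s : Set ℝ} (hm : MeasurableSet s) (hunc : ¬ s.Countable) :
    ∃ f : (ℕ → Bool) → ℝ, Set.range f ⊆ s ∧ Continuous f ∧ Function.Injective f := by
  obtain ⟨t, hle, ht, hcl, -⟩ := hm.isClopenable
  obtain ⟨f, hf, hfc, hfi⟩ := @IsClosed.exists_nat_bool_injection_of_not_countable ℝ t ht _ hcl hunc
  exact ⟨f, hf, continuous_le_rng hle hfc, hfi⟩

/-- a set of reals which has fewer than continuum many points in each closed set missing a countable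
set contains no uncountable compact set -/
theorem compact_countable {X Q : Set ℝ} (hQ : Q.Countable)
    (h : ∀ K : Set ℝ, IsClosed K → Disjoint K Q → #(K ∩ X : Set ℝ) < continuum) {P : Set ℝ}
    (hP : IsCompact P) (hPX : P ⊆ X) : P.Countable := by
  by_contra hne
  have hm : MeasurableSet (P \ Q) := hP.isClosed.measurableSet.diff hQ.measurableSet
  have hunc : ¬ (P \ Q).Countable := fun hc => hne ((hc.union hQ).mono fun y hy => by
    by_cases hyQ : y ∈ Q
    · exact Or.inr hyQ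
    · exact Or.inl ⟨hy, hyQ⟩)
  obtain ⟨f, hf, hfc', hfi⟩ := exists_inj hm hunc
  have h1 := h (Set.range f) (isCompact_range hfc').isClosed
    (Set.disjoint_left.2 fun y hy hyQ => (hf hy).2 hyQ)
  have h2 : (Set.range f ∩ X : Set ℝ) = Set.range f :=
    Set.inter_eq_left.2 fun y hy => hPX (hf hy).1
  rw [h2, mk_range_eq f hfi] at h1
  simp at h1

theorem result (h : dominatingNumber = continuum) :
    ∃ X : Set ℝ, #X = dominatingNumber ∧ SFin (Omega X) (Omega X) ∧
      (∃ Q : Set ℝ, Q ⊆ X ∧ Q.Countable ∧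
        ∀ K : Set ℝ, IsClosed K → Disjoint K Q → #(K ∩ X : Set ℝ) < dominatingNumber) ∧
      ∀ P : Set ℝ, IsCompact P → P ⊆ X → P.Countable := by
  classical
  have hd : SF.dominatingNumber = continuum := h
  -- the index set and the codes
  let I : Type := continuum.{0}.ord.ToType
  have hIc : #I = continuum := by simp [I]
  have hI : ∀ i : I, #(Set.Iio i) < continuum := fun i => by simpa [I] using mk_Iio_lt i
  have hCc : #SF.Code = #I := by
    rw [hIc]
    have h1 : #(Set SF.Ix) = continuum := by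
      rw [mk_set, mk_eq_aleph0 SF.Ix]; exact two_power_aleph0
    show #(ℕ → Set SF.Ix) = continuum
    rw [← power_def, h1, mk_nat, continuum_power_aleph0]
  obtain ⟨code⟩ := Cardinal.eq.1 hCc
  obtain ⟨x, hx⟩ := SF.exists_points hI hd code.symm
  have hinj : Function.Injective x := by
    intro β γ h
    by_contra hne
    rcases lt_or_gt_of_ne hne with h1 | h1
    · exact (hx γ).2.1 β h1 h.symm
    · exact (hx β).2.1 γ h1 h
  set X0 : Set SF.C := SF.Q ∪ Set.range x with hX0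
  have hcard : #X0 = continuum := by
    apply le_antisymm
    · calc #X0 ≤ #SF.C := mk_set_le _
        _ = continuum := by simp [SF.C]
    · calc continuum = #(Set.range x) := by rw [mk_range_eq x hinj, hIc]
        _ ≤ #X0 := mk_le_mk_of_subset subset_union_right
  -- the embedding into the reals
  let e : SF.C → ℝ := fun s => (cantorSetHomeomorphNatToBool.symm s : ℝ)
  have he : Topology.IsEmbedding e :=
    Topology.IsEmbedding.subtypeVal.comp cantorSetHomeomorphNatToBool.symm.isEmbedding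
  -- the finite sets
  have hfinQ : ∀ m : ℕ, {q : SF.C | ∀ k, m ≤ k → q k = false}.Finite := by
    intro m
    refine (Set.finite_range fun s : Fin m → Bool => (fun k => if hk : k < m then s ⟨k, hk⟩ else false : SF.C)).subset ?_
    intro q hq
    refine ⟨fun k => q k, funext fun k => ?_⟩
    by_cases hk : k < m
    · simp [hk]
    · simp [hk, hq k (by omega)]
  have hQc : SF.Q.Countable := by
    refine (Set.countable_iUnion fun m => (hfinQ m).countable).mono fun q hq => ?_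
    obtain ⟨m, hm⟩ := hq
    exact mem_iUnion.2 ⟨m, hm⟩
  -- closed sets which miss the finite sets
  have hlate : ∀ K : Set SF.C, IsClosed K → (∀ q ∈ SF.Q, q ∉ K) →
      #(K ∩ X0 : Set SF.C) < continuum := by
    intro K hK hKQ
    let c : SF.Code := fun _ => {i | ∀ y ∈ SF.B i, y ∉ K}
    obtain ⟨ξ, hξ⟩ : ∃ ξ, code.symm ξ = c := ⟨code c, code.symm_apply_apply c⟩
    have hg : SF.Good (code.symm ξ) (x '' ((∅ : Finset I) : Set I)) := by
      intro n m
      rw [hξ]
      obtain ⟨i, hi, hiV⟩ := SF.exists_B hK.isOpen_compl (hfinQ m).toFinset (by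
        intro y hy
        exact hKQ y ⟨m, (hfinQ m).mem_toFinset.1 (Finset.mem_coe.1 hy)⟩)
      refine ⟨i, fun y hy => hiV hy, by simp, fun q hq => hi ?_⟩
      exact Finset.mem_coe.2 ((hfinQ m).mem_toFinset.2 hq)
    have hM : (SF.Mset (code.symm ξ) (x '' Set.Iio ξ) (x '' ((∅ : Finset I) : Set I))
        (x '' ((∅ : Finset I) : Set I))).Infinite := by
      have h3 := SF.Hf_spec (code.symm ξ) (by rw [hd]; exact aleph0_lt_continuum)
        (E := x '' Set.Iio ξ) (by rw [hd]; exact mk_image_le.trans_lt (hI ξ)) ∅ (by simp)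
      refine h3.mono fun n hn => ⟨?_, by simp⟩
      simpa using hn
    have hout : ∀ γ, ξ ≤ γ → x γ ∉ K := by
      intro γ hγ
      obtain ⟨n, hn⟩ := ((hx γ).2.2 ξ hγ ∅ (by simp) ∅ (by simp) hg hM).nonempty
      obtain ⟨i, hi, -, -, hiG⟩ := (SF.Af_spec hg).2 n
      rw [hξ] at hi
      exact hi _ (hiG _ hn.2)
    refine (mk_le_mk_of_subset (t := x '' Set.Iio ξ) ?_).trans_lt (mk_image_le.trans_lt (hI ξ))
    rintro y ⟨hyK, hy⟩
    rcases hy with hyQ | ⟨γ, rfl⟩
    · exact absurd hyK (hKQ y hyQ)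
    · exact ⟨γ, lt_of_not_ge fun hγ => hout γ hγ hyK, rfl⟩
  have hlate' : ∀ K : Set ℝ, IsClosed K → Disjoint K (e '' SF.Q) → #(K ∩ e '' X0 : Set ℝ) < continuum := by
    intro K hK hKQ
    have h4 := hlate (e ⁻¹' K) (hK.preimage he.continuous)
      (fun q hq hqK => Set.disjoint_left.1 hKQ hqK ⟨q, hq, rfl⟩)
    rw [← Set.image_preimage_inter, mk_image_eq he.injective]
    exact h4
  have hQc' : (e '' SF.Q).Countable := hQc.image e
  refine ⟨e '' X0, ?_, homeo (he.homeomorphImage X0) ?_,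
    ⟨e '' SF.Q, Set.image_mono subset_union_left, hQc', fun K hK hKQ => by rw [h]; exact hlate' K hK hKQ⟩,
    fun P hP hPX => compact_countable hQc' hlate' hP hPX⟩
  · rw [mk_image_eq he.injective, hcard, h]
  -- the selection principle
  intro 𝒰 hU
  let c : SF.Code := fun n => {i | ∃ U ∈ 𝒰 n, ∀ y : X0, y.1 ∈ SF.B i → y ∈ U}
  have hc : ∀ n, ∀ i ∈ c n, ∃ U ∈ 𝒰 n, ∀ y : X0, y.1 ∈ SF.B i → y ∈ U := fun n i hi => hi
  choose! U hUm hUB using hc
  obtain ⟨ξ, hξ⟩ : ∃ ξ, code.symm ξ = c := ⟨code c, code.symm_apply_apply c⟩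
  have hgood : ∀ F : Finset SF.C, (F : Set SF.C) ⊆ Set.range x → SF.Good (code.symm ξ) F := by
    intro F hF n m
    rw [hξ]
    have hfin : {q : SF.C | ∀ k, m ≤ k → q k = false}.Finite := by
      refine (Set.finite_range fun s : Fin m → Bool => (fun k => if hk : k < m then s ⟨k, hk⟩ else false : SF.C)).subset ?_
      intro q hq
      refine ⟨fun k => q k, funext fun k => ?_⟩
      by_cases hk : k < m
      · simp [hk]
      · simp [hk, hq k (by omega)]
    have hsub : ∀ y ∈ F ∪ hfin.toFinset, y ∈ X0 := by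
      intro y hy
      rcases Finset.mem_union.1 hy with h1 | h1
      · exact Or.inr (hF h1)
      · exact Or.inl ⟨m, (hfin.mem_toFinset.1 h1)⟩
    let A' : Finset X0 := (F ∪ hfin.toFinset).attach.image
      (fun y : {y // y ∈ F ∪ hfin.toFinset} => (⟨y.1, hsub y.1 y.2⟩ : X0))
    obtain ⟨W, hW, hFW⟩ := (hU n).2 A'
    obtain ⟨V, hV, rfl⟩ := isOpen_induced_iff.1 ((hU n).1 W hW).1
    obtain ⟨i, hi, hiV⟩ := SF.exists_B hV (F ∪ hfin.toFinset) (by
      intro y hy
      have := hFW (Finset.mem_coe.2 (Finset.mem_image.2 ⟨⟨y, hy⟩, Finset.mem_attach _ _, rfl⟩))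
      exact this)
    refine ⟨i, ⟨_, hW, fun y hy => hiV hy⟩, fun y hy => hi (by simp [Finset.mem_coe.1 hy]), fun q hq => hi ?_⟩
    have : q ∈ hfin.toFinset := hfin.mem_toFinset.2 hq
    exact Finset.mem_coe.2 (Finset.mem_union_right _ this)
  set hh := SF.Hf (code.symm ξ) (x '' Set.Iio ξ) with hhdef
  refine ⟨fun n => U n '' {i | i ∈ c n ∧ SF.idx i ≤ hh n}, fun n => ⟨?_, ?_⟩, ?_, fun S => ?_⟩
  · refine Set.Finite.image _ ?_
    exact ((Set.finite_Iic (hh n)).preimage (SF.idx_inj.injOn)).subset fun i hi => hi.2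
  · rintro _ ⟨i, hi, rfl⟩
    exact hUm n i hi.1
  · intro V hV
    obtain ⟨n, i, hi, rfl⟩ := mem_iUnion.1 hV
    exact (hU n).1 _ (hUm n i hi.1)
  · obtain ⟨n, i, hi, hin, hSi⟩ := SF.cover hI hd code.symm hx ξ hgood (S.image Subtype.val) (by
      intro y hy
      obtain ⟨z, -, rfl⟩ := Finset.mem_image.1 (Finset.mem_coe.1 hy)
      exact z.2)
    rw [hξ] at hi
    refine ⟨U n i, mem_iUnion.2 ⟨n, i, ⟨hi, hin⟩, rfl⟩, fun y hy => ?_⟩
    exact hUB n i hi y (hSi (Finset.mem_coe.2 (Finset.mem_image_of_mem _ hy)))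

end Pool.Agent.Results.MP_8d0d04_lc.ContinuumCase
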