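import Pool.Agent.Lib_helper75.SFN.Fin

/-!
# Sets of reals with `S_fin(Ω, Ω)` of cardinality `𝔡`, when the reals have a filtration

Suppose that the Baire space is the union of a chain of families none of which is dominating, such
that every partial continuous function of finitely many variables maps each large enough member of
the chain into itself. Then for every cardinal `μ` with `𝔡 ≤ μ ≤ 𝔠`, for example `μ = 𝔡`, some set
of reals of cardinality `μ` satisfies `S_fin(Ω, Ω)`. No assumption is made on the cofinality of `𝔡`,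
and `𝔡 < 𝔠` is allowed.
-/

set_option autoImplicit false

namespace Pool.Agent.Results.MP_8d0d04_lc.FiltrationOfTheReals

open Set Cardinal

/-- The open `ω`-covers of a space `Y` (for a set of reals `X`, take `Y = X` with the subspace
topology): families of open sets, none of them all of `Y`, such that every finite subset of `Y` is
inside of a member. -/
def Omega (Y : Type) [TopologicalSpace Y] : Set (Set (Set Y)) :=
  {𝒰 | (∀ U ∈ 𝒰, IsOpen U ∧ U ≠ Set.univ) ∧ ∀ F : Finset Y, ∃ U ∈ 𝒰, (F : Set Y) ⊆ U}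

/-- The selection principle `S_fin(A, B)`. -/
def SFin {Y : Type} (A B : Set (Set (Set Y))) : Prop :=
  ∀ 𝒰 : ℕ → Set (Set Y), (∀ n, 𝒰 n ∈ A) →
    ∃ ℱ : ℕ → Set (Set Y), (∀ n, (ℱ n).Finite ∧ ℱ n ⊆ 𝒰 n) ∧ (⋃ n, ℱ n) ∈ B

/-- Dominating families, for eventual domination. -/
def Dominating (D : Set (ℕ → ℕ)) : Prop :=
  ∀ g : ℕ → ℕ, ∃ f ∈ D, ∀ᶠ n in Filter.atTop, g n ≤ f n

/-- The dominating number `𝔡`. -/
noncomputable def dominatingNumber : Cardinal.{0} :=
  sInf {κ | ∃ D : Set (ℕ → ℕ), #D = κ ∧ Dominating D}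

/-- A filtration of the reals: `𝒩` is a chain, under inclusion, of families of functions, none of
which is dominating; its union is the whole Baire space; and for every continuous function `F` from
a set `D` of `s`-tuples to the Baire space there is a member `N₀` of `𝒩` such that every member
`N ⊇ N₀` contains the values of `F` at the `s`-tuples of members of `N` which are in `D`. -/
structure Filtration (𝒩 : Set (Set (ℕ → ℕ))) : Prop where
  chain : IsChain (· ⊆ ·) 𝒩
  exhaust : ⋃₀ 𝒩 = Set.univ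
  not_dominating : ∀ N ∈ 𝒩, ¬ Dominating N
  closed : ∀ (s : ℕ) (D : Set (Fin s → ℕ → ℕ)) (F : (Fin s → ℕ → ℕ) → ℕ → ℕ), ContinuousOn F D →
    ∃ N₀ ∈ 𝒩, ∀ N ∈ 𝒩, N₀ ⊆ N → ∀ x ∈ D, (∀ i, x i ∈ N) → F x ∈ N

/-- `𝔡 ≤ 𝔠`, so that `μ = 𝔡` is allowed in `result`. -/
theorem dominatingNumber_le_continuum : dominatingNumber ≤ continuum := SFN.dNum_le

theorem result (𝒩 : Set (Set (ℕ → ℕ))) (h : Filtration 𝒩) (μ : Cardinal.{0})
    (h₁ : dominatingNumber ≤ μ) (h₂ : μ ≤ continuum) :
    ∃ X : Set ℝ, #X = μ ∧ SFin (Omega X) (Omega X) := by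
  have hf : SFN.Filt 𝒩 := by
    refine ⟨h.chain, h.exhaust, fun N hN => ?_⟩
    have h3 := h.not_dominating N hN
    unfold Dominating at h3
    push Not at h3
    obtain ⟨g, hg⟩ := h3
    refine ⟨g, fun f hf hev => ?_⟩
    obtain ⟨n, hn, hn2⟩ := ((hg f hf).and_eventually hev).exists
    omega
  exact SFN.exists_reals hf h.closed h₁ h₂

end Pool.Agent.Results.MP_8d0d04_lc.FiltrationOfTheReals
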