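import Pool.Agent.Lib_helper14.SF.Two

/-!
# MP_8d0d04_lc: a set of reals of cardinality `𝔡` for which two members suffice (in ZFC)
-/

set_option autoImplicit false

namespace Pool.Agent.Results.MP_8d0d04_lc.TwoMembers

open Set Cardinal

/-- The open `ω`-covers of a space `Y` (for a set of reals `X`, take `Y = X` with the subspace
topology): families of open sets, none of them all of `Y`, such that every finite subset of `Y` is
inside of a member. -/
def Omega (Y : Type) [TopologicalSpace Y] : Set (Set (Set Y)) :=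
  {𝒰 | (∀ U ∈ 𝒰, IsOpen U ∧ U ≠ Set.univ) ∧ ∀ F : Finset Y, ∃ U ∈ 𝒰, (F : Set Y) ⊆ U}

/-- `ℱ` is a selection from the sequence `𝒰`: finitely many members of each `𝒰 n`. -/
def Selection {Y : Type} (𝒰 ℱ : ℕ → Set (Set Y)) : Prop := ∀ n, (ℱ n).Finite ∧ ℱ n ⊆ 𝒰 n

/-- The dominating number `𝔡`. -/
noncomputable def dominatingNumber : Cardinal.{0} :=
  sInf {κ | ∃ D : Set (ℕ → ℕ), #D = κ ∧ ∀ g : ℕ → ℕ, ∃ f ∈ D, ∀ᶠ n in Filter.atTop, g n ≤ f n}

theorem result :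
    ∃ X : Set ℝ, #X = dominatingNumber ∧
      -- `X` is `𝔡`-concentrated on a countable subset
      (∃ Q : Set ℝ, Q ⊆ X ∧ Q.Countable ∧
        ∀ K : Set ℝ, IsClosed K → Disjoint K Q → #(K ∩ X : Set ℝ) < dominatingNumber) ∧
      -- two members suffice for the finite sets
      (∀ 𝒰 : ℕ → Set (Set X), (∀ n, 𝒰 n ∈ Omega X) → ∃ ℱ, Selection 𝒰 ℱ ∧
        ∀ F : Finset X, ∃ U ∈ ⋃ n, ℱ n, ∃ V ∈ ⋃ n, ℱ n, (F : Set X) ⊆ U ∪ V) ∧
      -- the full form: a rank with small initial segments, and sets `E` with few points of small rank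
      ∃ r : X → dominatingNumber.ord.ToType, (∀ ξ, #{y | r y < ξ} < dominatingNumber) ∧
        ∀ 𝒰 : ℕ → Set (Set X), (∀ n, 𝒰 n ∈ Omega X) → ∀ E : Set X,
          (∀ ξ, #{y | y ∈ E ∧ r y < ξ} < dominatingNumber.ord.cof) →
          ∃ ξ, ∃ ℱ, Selection 𝒰 ℱ ∧
            (∀ F : Finset X, (∀ y ∈ F, r y < ξ) → ∃ U ∈ ⋃ n, ℱ n, (F : Set X) ⊆ U) ∧
            (∀ F : Finset X, (∀ y ∈ F, ξ ≤ r y ∨ y ∈ E) → ∃ U ∈ ⋃ n, ℱ n, (F : Set X) ⊆ U) := by
  classical
  change ∃ X : Set ℝ, #X = SF.dominatingNumber ∧ _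
  -- the points
  obtain ⟨D, hD, hdom⟩ := SF.exists_dominating
  obtain ⟨ε⟩ : Nonempty (SF.Idx ≃ D) := Cardinal.eq.1 (by rw [SF.mk_Idx, hD])
  let φ : SF.Idx → ℕ → ℕ := fun i => ε i
  have hφ : ∀ g : ℕ → ℕ, ∃ ξ, ∀ᶠ n in Filter.atTop, g n ≤ φ ξ n := by
    intro g
    obtain ⟨f, hf, hfg⟩ := hdom g
    obtain ⟨i, hi⟩ := ε.surjective ⟨f, hf⟩
    refine ⟨i, ?_⟩
    show ∀ᶠ n in Filter.atTop, g n ≤ (ε i : ℕ → ℕ) n
    rw [hi]
    exact hfg
  obtain ⟨x, hx⟩ := SF.exists_points' SF.mk_Iio_Idx φ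
  have hinj : Function.Injective x := by
    intro β γ h
    by_contra hne
    rcases lt_or_gt_of_ne hne with h1 | h1
    · exact (hx γ).2.1 β h1 h.symm
    · exact (hx β).2.1 γ h1 h
  have hcd : SF.dominatingNumber.ord.cof ≤ SF.dominatingNumber := by
    rw [← SF.cof_Idx]; exact (Order.cof_le_cardinalMk _).trans SF.mk_Idx.le
  have hd0 : ℵ₀ < SF.dominatingNumber := SF.aleph0_lt_cof.trans_le hcd
  have hIne : Nonempty SF.Idx := by
    rw [← Cardinal.mk_ne_zero_iff, SF.mk_Idx]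
    exact (aleph0_pos.trans_le SF.aleph0_le_dominatingNumber).ne'
  obtain ⟨i₀, -, hi₀⟩ := (wellFounded_lt (α := SF.Idx)).has_min Set.univ Set.univ_nonempty
  have hi₀' : ∀ i, i₀ ≤ i := fun i => not_lt.1 (hi₀ i (Set.mem_univ _))
  -- the finite sets
  have hfinQ : ∀ m : ℕ, {q : SF.C | ∀ k, m ≤ k → q k = false}.Finite := by
    intro m
    refine (Set.finite_range fun s : Fin m → Bool =>
      (fun k => if hk : k < m then s ⟨k, hk⟩ else false : SF.C)).subset ?_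
    intro q hq
    refine ⟨fun k => q k, funext fun k => ?_⟩
    by_cases hk : k < m
    · simp [hk]
    · simp [hk, hq k (by omega)]
  have hQc : SF.Q.Countable := by
    refine (Set.countable_iUnion fun m => (hfinQ m).countable).mono fun q hq => ?_
    obtain ⟨m, hm⟩ := hq
    exact mem_iUnion.2 ⟨m, hm⟩
  have hQd : #SF.Q < SF.dominatingNumber := (Cardinal.le_aleph0_iff_set_countable.2 hQc).trans_lt hd0
  set X0 : Set SF.C := SF.Q ∪ Set.range x with hX0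
  have hcard : #X0 = SF.dominatingNumber := by
    apply le_antisymm
    · refine (mk_union_le _ _).trans ?_
      rw [mk_range_eq x hinj, SF.mk_Idx]
      exact add_le_of_le hd0.le hQd.le le_rfl
    · calc SF.dominatingNumber = #(Set.range x) := by rw [mk_range_eq x hinj, SF.mk_Idx]
        _ ≤ #X0 := mk_le_mk_of_subset subset_union_right
  -- the embedding into the reals
  let e : SF.C → ℝ := fun s => (cantorSetHomeomorphNatToBool.symm s : ℝ)
  have he : Topology.IsEmbedding e :=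
    Topology.IsEmbedding.subtypeVal.comp cantorSetHomeomorphNatToBool.symm.isEmbedding
  let ho := he.homeomorphImage X0
  let p : (e '' X0 : Set ℝ) → SF.C := fun z => (ho.symm z : SF.C)
  have hp : Topology.IsEmbedding p := Topology.IsEmbedding.subtypeVal.comp ho.symm.isEmbedding
  have hpX : ∀ z, p z ∈ X0 := fun z => (ho.symm z).2
  have hpr : ∀ s ∈ X0, ∃ z, p z = s := fun s hs => ⟨ho ⟨s, hs⟩, by simp [p]⟩
  -- the rank
  let r : (e '' X0 : Set ℝ) → SF.Idx := fun z => if h : ∃ γ, x γ = p z then h.choose else i₀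
  have hr1 : ∀ z γ, x γ = p z → r z = γ := by
    intro z γ h
    have h' : ∃ γ, x γ = p z := ⟨γ, h⟩
    have : r z = h'.choose := dif_pos h'
    rw [this]
    exact hinj (h'.choose_spec.trans h.symm)
  have hr : ∀ z, x (r z) = p z ∨ ∀ i, r z ≤ i := by
    intro z
    by_cases h : ∃ γ, x γ = p z
    · obtain ⟨γ, hγ⟩ := h
      rw [hr1 z γ hγ]
      exact Or.inl hγ
    · right
      have : r z = i₀ := dif_neg h
      rw [this]
      exact hi₀'
  have hsmall : ∀ ξ, #{z | r z < ξ} < SF.dominatingNumber := by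
    intro ξ
    have h1 : #(p '' {z | r z < ξ}) < SF.dominatingNumber := by
      refine (mk_le_mk_of_subset (t := SF.Q ∪ x '' Set.Iio ξ) ?_).trans_lt ((mk_union_le _ _).trans_lt
        (add_lt_of_lt hd0.le hQd (mk_image_le.trans_lt (SF.mk_Iio_Idx ξ))))
      rintro _ ⟨z, hz, rfl⟩
      rcases hpX z with h | ⟨γ, hγ⟩
      · exact Or.inl h
      · refine Or.inr ⟨γ, ?_, hγ⟩
        have := hr1 z γ hγ
        show γ < ξ
        rw [← this]
        exact hz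
    rwa [mk_image_eq hp.injective] at h1
  -- the full form
  have hfull : ∀ 𝒰 : ℕ → Set (Set (e '' X0 : Set ℝ)), (∀ n, 𝒰 n ∈ Omega (e '' X0 : Set ℝ)) →
      ∀ E : Set (e '' X0 : Set ℝ), (∀ ξ, #{y | y ∈ E ∧ r y < ξ} < SF.dominatingNumber.ord.cof) →
      ∃ ξ, ∃ ℱ, Selection 𝒰 ℱ ∧
        (∀ F : Finset (e '' X0 : Set ℝ), (∀ y ∈ F, r y < ξ) → ∃ U ∈ ⋃ n, ℱ n, (F : Set (e '' X0 : Set ℝ)) ⊆ U) ∧
        (∀ F : Finset (e '' X0 : Set ℝ), (∀ y ∈ F, ξ ≤ r y ∨ y ∈ E) →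
          ∃ U ∈ ⋃ n, ℱ n, (F : Set (e '' X0 : Set ℝ)) ⊆ U) := by
    intro 𝒰 hU E hE
    let c : SF.Code := fun n => {i | ∃ U ∈ 𝒰 n, ∀ z, p z ∈ SF.B i → z ∈ U}
    have hc : ∀ n, ∀ i ∈ c n, ∃ U ∈ 𝒰 n, ∀ z, p z ∈ SF.B i → z ∈ U := fun n i hi => hi
    choose! U hUm hUB using hc
    have hgood : ∀ F : Finset (e '' X0 : Set ℝ), SF.Good c (p '' F) := by
      intro F n m
      have hQ' : ∀ q ∈ (hfinQ m).toFinset, ∃ z, p z = q := fun q hq =>
        hpr q (Or.inl ⟨m, (hfinQ m).mem_toFinset.1 hq⟩)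
      have hne : Nonempty (e '' X0 : Set ℝ) :=
        ⟨(hpr (fun _ => false) (Or.inl ⟨0, fun _ _ => rfl⟩)).choose⟩
      choose! z hz using hQ'
      obtain ⟨W, hW, hFW⟩ := (hU n).2 (F ∪ (hfinQ m).toFinset.image z)
      obtain ⟨V, hV, hVW⟩ := hp.isOpen_iff.1 ((hU n).1 W hW).1
      obtain ⟨i, hi, hiV⟩ := SF.exists_B hV (F.image p ∪ (hfinQ m).toFinset) (by
        intro y hy
        rcases Finset.mem_union.1 (Finset.mem_coe.1 hy) with h1 | h1
        · obtain ⟨w, hw, rfl⟩ := Finset.mem_image.1 h1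
          have h2 : w ∈ W := hFW (Finset.mem_coe.2 (Finset.mem_union_left _ hw))
          rw [← hVW] at h2
          exact h2
        · have h2 : z y ∈ W := hFW (Finset.mem_coe.2 (Finset.mem_union_right _ (Finset.mem_image_of_mem _ h1)))
          rw [← hVW] at h2
          have h3 : p (z y) ∈ V := h2
          rwa [hz y h1] at h3)
      refine ⟨i, ⟨W, hW, fun w hw => ?_⟩, ?_, fun q hq => hi ?_⟩
      · rw [← hVW]
        exact hiV hw
      · rintro _ ⟨w, hw, rfl⟩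
        exact hi (Finset.mem_coe.2 (Finset.mem_union_left _ (Finset.mem_image_of_mem _ (Finset.mem_coe.1 hw))))
      · exact Finset.mem_coe.2 (Finset.mem_union_right _ ((hfinQ m).mem_toFinset.2 hq))
    obtain ⟨ξ, h, h1, h2⟩ := SF.selects hφ hx hr hsmall hgood E hE
    refine ⟨ξ, fun n => U n '' {i | i ∈ c n ∧ SF.idx i ≤ h n}, fun n => ⟨?_, ?_⟩, fun F hF => ?_, fun F hF => ?_⟩
    · refine Set.Finite.image _ ?_
      exact ((Set.finite_Iic (h n)).preimage (SF.idx_inj.injOn)).subset fun i hi => hi.2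
    · rintro _ ⟨i, hi, rfl⟩
      exact hUm n i hi.1
    · obtain ⟨n, i, hi, hin, hFi⟩ := h1 F hF
      exact ⟨U n i, mem_iUnion.2 ⟨n, i, ⟨hi, hin⟩, rfl⟩, fun y hy => hUB n i hi y (hFi y (Finset.mem_coe.1 hy))⟩
    · obtain ⟨n, i, hi, hin, hFi⟩ := h2 F hF
      exact ⟨U n i, mem_iUnion.2 ⟨n, i, ⟨hi, hin⟩, rfl⟩, fun y hy => hUB n i hi y (hFi y (Finset.mem_coe.1 hy))⟩
  -- concentration
  have hlate : ∀ K : Set SF.C, IsClosed K → (∀ q ∈ SF.Q, q ∉ K) → #(K ∩ X0 : Set SF.C) < SF.dominatingNumber := by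
    intro K hK hKQ
    let c : SF.Code := fun _ => {i | ∀ y ∈ SF.B i, y ∉ K}
    have hg : SF.Good c ∅ := by
      intro n m
      obtain ⟨i, hi, hiV⟩ := SF.exists_B hK.isOpen_compl (hfinQ m).toFinset (by
        intro y hy
        exact hKQ y ⟨m, (hfinQ m).mem_toFinset.1 (Finset.mem_coe.1 hy)⟩)
      refine ⟨i, fun y hy => hiV hy, by simp, fun q hq => hi ?_⟩
      exact Finset.mem_coe.2 ((hfinQ m).mem_toFinset.2 hq)
    obtain ⟨ξ, hξ⟩ := SF.exists_index hφ (SF.Af_spec hg).1 Set.infinite_univ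
    have hout : ∀ γ, ξ ≤ γ → x γ ∉ K := by
      intro γ hγ
      have h1 := SF.late hx ξ {γ} (by simpa using hγ)
      obtain ⟨m, hm, n, -, -, hn⟩ := ((Nat.frequently_atTop_iff_infinite.2 h1).and_eventually hξ).exists
      obtain ⟨i, hi, -, -, hiG⟩ := (SF.Af_spec hg).2 n
      exact hi _ (hiG _ (hn _ (hm _ ⟨γ, by simp, rfl⟩)))
    refine (mk_le_mk_of_subset (t := x '' Set.Iio ξ) ?_).trans_lt (mk_image_le.trans_lt (SF.mk_Iio_Idx ξ))
    rintro y ⟨hyK, hy⟩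
    rcases hy with hyQ | ⟨γ, rfl⟩
    · exact absurd hyK (hKQ y hyQ)
    · exact ⟨γ, lt_of_not_ge fun hγ => hout γ hγ hyK, rfl⟩
  refine ⟨e '' X0, by rw [mk_image_eq he.injective, hcard],
    ⟨e '' SF.Q, Set.image_mono subset_union_left, hQc.image e, fun K hK hKQ => ?_⟩, fun 𝒰 hU => ?_,
    r, hsmall, hfull⟩
  · have h4 := hlate (e ⁻¹' K) (hK.preimage he.continuous)
      (fun q hq hqK => Set.disjoint_left.1 hKQ hqK ⟨q, hq, rfl⟩)
    rw [← Set.image_preimage_inter, mk_image_eq he.injective]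
    exact h4
  · have hcne : (0 : Cardinal) < SF.dominatingNumber.ord.cof := aleph0_pos.trans SF.aleph0_lt_cof
    obtain ⟨ξ, ℱ, hsel, h1, h2⟩ := hfull 𝒰 hU ∅ (fun ξ => by simpa using hcne)
    refine ⟨ℱ, hsel, fun F => ?_⟩
    obtain ⟨V1, hV1, hF1⟩ := h1 (F.filter fun y => ¬ ξ ≤ r y) (fun y hy => not_le.1 (Finset.mem_filter.1 hy).2)
    obtain ⟨V2, hV2, hF2⟩ := h2 (F.filter fun y => ξ ≤ r y) (fun y hy => Or.inl (Finset.mem_filter.1 hy).2)
    refine ⟨V1, hV1, V2, hV2, fun y hy => ?_⟩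
    by_cases hy1 : ξ ≤ r y
    · exact Or.inr (hF2 (Finset.mem_coe.2 (Finset.mem_filter.2 ⟨Finset.mem_coe.1 hy, hy1⟩)))
    · exact Or.inl (hF1 (Finset.mem_coe.2 (Finset.mem_filter.2 ⟨Finset.mem_coe.1 hy, hy1⟩)))

end Pool.Agent.Results.MP_8d0d04_lc.TwoMembers
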